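import Mathlib
import Pool.Agent.H95.BL.Params

open Filter Topology Asymptotics

namespace Pool.Agent.Results.MP_0be95c_pr.ChromaticJumpGap

open Pool.Agent.H95.BL

/-- For all large `k` the chromatic number of the random graph process jumps from `k` to `k + 1`
a.s. at least `(k log k / 80) n` steps after the first step `τ_B` at which a bilinked collection
of `k` stable sets (whose union is not a triangle) appears; in particular the answer to Q1 is
no. -/
theorem result :
    (∃ k₀ : ℕ, ∀ k ≥ k₀,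
      Tendsto (fun n : ℕ => prob {π : EdgeOrder n | ∃ b c : ℕ, IsTauB k π b ∧ IsTauChi k π c ∧
        (b : ℝ) + (k * Real.log k / 80) * n ≤ c}) atTop (𝓝 1)) ∧
    ¬ (∀ k ≥ 3, ∃ f : ℕ → ℝ, f =o[atTop] (fun n : ℕ => (n : ℝ)) ∧
      Tendsto (fun n : ℕ => prob {π : EdgeOrder n | ∃ b c : ℕ, IsTauB k π b ∧ IsTauChi k π c ∧
        |(c : ℝ) - b| ≤ f n}) atTop (𝓝 1)) := by
  have hev : ∀ᶠ k : ℕ in atTop,
      Tendsto (fun n : ℕ => prob {π : EdgeOrder n | ∃ b c : ℕ, IsTauB k π b ∧ IsTauChi k π c ∧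
        (b : ℝ) + (k * Real.log k / 80) * n ≤ c}) atTop (𝓝 1) := by
    filter_upwards [params_bil, params_col, eventually_ge_atTop 4,
      tendsto_log_nat.eventually_ge_atTop 1] with k h1 h2 h3 h4
    have hk0 : (0 : ℝ) < k := by
      have : (4 : ℝ) ≤ k := by exact_mod_cast h3
      linarith
    have hpos : 0 < (k : ℝ) * Real.log k := mul_pos hk0 (by linarith)
    exact gap h3 (by positivity) (by linarith) h1 h2 (by linarith)
  obtain ⟨k₀, hk₀⟩ := eventually_atTop.1 hev
  refine ⟨⟨k₀, hk₀⟩, ?_⟩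
  intro hall
  set k := max k₀ 3 with hk
  have hA := hk₀ k (le_max_left _ _)
  obtain ⟨f, hf, hB⟩ := hall k (le_max_right _ _)
  have hk3 : (3 : ℝ) ≤ k := by
    have : 3 ≤ k := le_max_right _ _
    exact_mod_cast this
  have hlog : 0 < Real.log k := Real.log_pos (by linarith)
  set δ : ℝ := k * Real.log k / 80 with hδ
  have hδ0 : 0 < δ := by rw [hδ]; positivity
  have hf2 := hf.def (half_pos hδ0)
  have hsum := hA.add hB
  have hlt : ∀ᶠ n : ℕ in atTop,
      prob {π : EdgeOrder n | ∃ b c : ℕ, IsTauB k π b ∧ IsTauChi k π c ∧ (b : ℝ) + δ * n ≤ c} +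
      prob {π : EdgeOrder n | ∃ b c : ℕ, IsTauB k π b ∧ IsTauChi k π c ∧
        |(c : ℝ) - b| ≤ f n} ≤ 1 := by
    filter_upwards [hf2, eventually_ge_atTop 1] with n hn hn1
    have hn0 : (0 : ℝ) < n := by exact_mod_cast hn1
    rw [Real.norm_eq_abs, Real.norm_eq_abs, abs_of_pos hn0] at hn
    have hsub : {π : EdgeOrder n | ∃ b c : ℕ, IsTauB k π b ∧ IsTauChi k π c ∧
        |(c : ℝ) - b| ≤ f n} ⊆
        {π : EdgeOrder n | ∃ b c : ℕ, IsTauB k π b ∧ IsTauChi k π c ∧
          (b : ℝ) + δ * n ≤ c}ᶜ := by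
      rintro π ⟨b, c, hb, hc, hbc⟩ ⟨b', c', hb', hc', hbc'⟩
      have e1 : b = b' := hb.unique hb'
      have e2 : c = c' := hc.unique hc'
      subst e1 e2
      have h1 : (c : ℝ) - b ≤ |(c : ℝ) - b| := le_abs_self _
      have h2 : f n ≤ |f n| := le_abs_self _
      have h3 : δ / 2 * n < δ * n := by nlinarith
      linarith
    have h4 := prob_mono hsub
    rw [prob_compl] at h4
    linarith
  have h2 : (1 : ℝ) + 1 ≤ 1 := le_of_tendsto hsum hlt
  norm_num at h2

end Pool.Agent.Results.MP_0be95c_pr.ChromaticJumpGap
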